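import Pool.Agent.TH198.AT.Conv

/-!
# The de Almeida–Thouless line: continuity of the averaged `L'(m)` as `m → 1`
-/

set_option autoImplicit false

open MeasureTheory ProbabilityTheory Set Filter Topology

namespace Pool.TH198.AT

namespace LIMf

theorem intE (K : ℝ) : Integrable (fun y : ℝ => Real.exp (K * |y|)) (gaussianReal 0 1) :=
  integrable_exp_mul_abs (X := fun y : ℝ => y) (integrable_exp_mul_gaussianReal K)
    (integrable_exp_mul_gaussianReal (-K))

theorem cosh_le (x : ℝ) : Real.cosh x ≤ Real.exp |x| := by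
  rw [← Real.cosh_abs, Real.cosh_eq]
  have h : Real.exp (-|x|) ≤ Real.exp |x| :=
    Real.exp_le_exp.2 (by have := abs_nonneg x; linarith)
  linarith

theorem pow_le {c m : ℝ} (hc : 1 ≤ c) (hm : m ≤ 1) : c ^ m ≤ c := by
  calc c ^ m ≤ c ^ (1 : ℝ) := Real.rpow_le_rpow_of_exponent_le hc hm
    _ = c := Real.rpow_one c

theorem log_le (x : ℝ) : Real.log (Real.cosh x) ≤ Real.exp |x| := by
  have h1 := Real.log_le_sub_one_of_pos (Real.cosh_pos x)
  have h2 := cosh_le x
  linarith

theorem log_nonneg' (x : ℝ) : 0 ≤ Real.log (Real.cosh x) := Real.log_nonneg (Real.one_le_cosh x)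

/-- the common bound -/
noncomputable def B (v x y : ℝ) : ℝ := Real.exp (2 * |x|) * Real.exp (2 * √v * |y|)

theorem intB (v x : ℝ) : Integrable (B v x) (gaussianReal 0 1) := by
  unfold B
  exact (intE (2 * √v)).const_mul _

theorem exp_le_B (v x y : ℝ) : Real.exp (2 * |x + √v * y|) ≤ B v x y := by
  unfold B
  rw [← Real.exp_add]
  refine Real.exp_le_exp.2 ?_
  have h1 := abs_add_le x (√v * y)
  rw [abs_mul, abs_of_nonneg (Real.sqrt_nonneg v)] at h1
  linarith

theorem sq_exp (u : ℝ) : Real.exp |u| * Real.exp |u| = Real.exp (2 * |u|) := by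
  rw [← Real.exp_add]
  ring_nf

theorem num_nonneg (m u : ℝ) : 0 ≤ Real.cosh u ^ m * Real.log (Real.cosh u) :=
  mul_nonneg (Real.rpow_nonneg (Real.cosh_pos u).le m) (log_nonneg' u)

theorem num_le {m : ℝ} (hm : m ≤ 1) (v x y : ℝ) :
    Real.cosh (x + √v * y) ^ m * Real.log (Real.cosh (x + √v * y)) ≤ B v x y := by
  refine le_trans ?_ (exp_le_B v x y)
  rw [← sq_exp]
  exact mul_le_mul ((pow_le (Real.one_le_cosh _) hm).trans (cosh_le _)) (log_le _)
    (log_nonneg' _) (Real.exp_pos _).le

theorem den_le {m : ℝ} (hm : m ≤ 1) (v x y : ℝ) :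
    Real.cosh (x + √v * y) ^ m ≤ B v x y := by
  refine le_trans ?_ (exp_le_B v x y)
  refine ((pow_le (Real.one_le_cosh _) hm).trans (cosh_le _)).trans (Real.exp_le_exp.2 ?_)
  have := abs_nonneg (x + √v * y)
  linarith

theorem den_ge {m : ℝ} (hm : 0 < m) (u : ℝ) : 1 ≤ Real.cosh u ^ m :=
  Real.one_le_rpow (Real.one_le_cosh u) hm.le

theorem meas_num (m : ℝ) : Measurable fun u : ℝ => Real.cosh u ^ m * Real.log (Real.cosh u) :=
  (Real.measurable_cosh.pow_const m).mul (Real.measurable_log.comp Real.measurable_cosh)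

theorem meas_den (m : ℝ) : Measurable fun u : ℝ => Real.cosh u ^ m :=
  Real.measurable_cosh.pow_const m

theorem int_num {m : ℝ} (hm : m ≤ 1) (v x : ℝ) :
    Integrable (fun y => Real.cosh (x + √v * y) ^ m * Real.log (Real.cosh (x + √v * y)))
      (gaussianReal 0 1) := by
  refine (intB v x).mono' ?_ (Eventually.of_forall fun y => ?_)
  · exact ((meas_num m).comp (measurable_const.add
      (measurable_const.mul measurable_id))).aestronglyMeasurable
  · rw [Real.norm_eq_abs, abs_of_nonneg (num_nonneg m _)]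
    exact num_le hm v x y

theorem int_den {m : ℝ} (hm : m ≤ 1) (v x : ℝ) :
    Integrable (fun y => Real.cosh (x + √v * y) ^ m) (gaussianReal 0 1) := by
  refine (intB v x).mono' ?_ (Eventually.of_forall fun y => ?_)
  · exact ((meas_den m).comp (measurable_const.add
      (measurable_const.mul measurable_id))).aestronglyMeasurable
  · rw [Real.norm_eq_abs, abs_of_nonneg (Real.rpow_nonneg (Real.cosh_pos _).le m)]
    exact den_le hm v x y

/-- the constant -/
noncomputable def C2 (v : ℝ) : ℝ := ∫ y, Real.exp (2 * √v * |y|) ∂(gaussianReal 0 1)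

theorem int_B (v x : ℝ) : ∫ y, B v x y ∂(gaussianReal 0 1) = Real.exp (2 * |x|) * C2 v := by
  unfold B C2
  exact integral_const_mul _ _

theorem D_ge {m : ℝ} (h0 : 0 < m) (hm : m ≤ 1) (v x : ℝ) :
    1 ≤ E1 (fun y => Real.cosh (x + √v * y) ^ m) := by
  unfold E1
  have h := integral_mono (integrable_const (1 : ℝ)) (int_den hm v x)
    (fun y => den_ge h0 (x + √v * y))
  simpa using h

theorem D_le {m : ℝ} (hm : m ≤ 1) (v x : ℝ) :
    E1 (fun y => Real.cosh (x + √v * y) ^ m) ≤ Real.exp (2 * |x|) * C2 v := by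
  unfold E1
  rw [← int_B]
  exact integral_mono (int_den hm v x) (intB v x) fun y => den_le hm v x y

theorem N_nonneg (m v x : ℝ) :
    0 ≤ E1 (fun y => Real.cosh (x + √v * y) ^ m * Real.log (Real.cosh (x + √v * y))) := by
  unfold E1
  exact integral_nonneg fun y => num_nonneg m _

theorem N_le {m : ℝ} (hm : m ≤ 1) (v x : ℝ) :
    E1 (fun y => Real.cosh (x + √v * y) ^ m * Real.log (Real.cosh (x + √v * y))) ≤
      Real.exp (2 * |x|) * C2 v := by
  unfold E1
  rw [← int_B]
  exact integral_mono (int_num hm v x) (intB v x) fun y => num_le hm v x y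

theorem LP_abs {m : ℝ} (h0 : 0 < m) (hm : m ≤ 1) (v x : ℝ) :
    |LP m v x| ≤ Real.exp (2 * |x|) * C2 v := by
  have h1 := D_ge h0 hm v x
  have h2 := N_nonneg m v x
  unfold LP
  rw [abs_of_nonneg (div_nonneg h2 (zero_le_one.trans h1))]
  exact (div_le_self h2 h1).trans (N_le hm v x)

theorem UH_abs {m : ℝ} (h0 : 0 < m) (hm : m ≤ 1) (v x : ℝ) :
    |UH m v x| ≤ (1 / m) * (Real.exp (2 * |x|) * C2 v) := by
  have h1 := D_ge h0 hm v x
  have h2 := Real.log_le_sub_one_of_pos (zero_lt_one.trans_le h1)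
  have h3 := D_le hm v x
  unfold UH
  rw [abs_of_nonneg (mul_nonneg (by positivity) (Real.log_nonneg h1))]
  refine mul_le_mul_of_nonneg_left ?_ (by positivity)
  linarith

theorem measE {f : ℝ → ℝ} (hf : Measurable f) (v : ℝ) :
    Measurable fun x : ℝ => E1 (fun y => f (x + √v * y)) := by
  unfold E1
  have h1 : Measurable (Function.uncurry fun x y : ℝ => f (x + √v * y)) :=
    hf.comp (measurable_fst.add (measurable_const.mul measurable_snd))
  exact (h1.stronglyMeasurable.integral_prod_right (ν := gaussianReal 0 1)).measurable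

theorem LP_meas (m v : ℝ) : Measurable (LP m v) := by
  unfold LP
  exact (measE (meas_num m) v).div (measE (meas_den m) v)

theorem UH_meas (m v : ℝ) : Measurable (UH m v) := by
  unfold UH
  exact measurable_const.mul (Real.measurable_log.comp (measE (meas_den m) v))

theorem meas_aff (s h : ℝ) : Measurable fun z : ℝ => h + √s * z :=
  measurable_const.add (measurable_const.mul measurable_id)

theorem exp_aff (s h z : ℝ) : Real.exp (2 * |h + √s * z|) ≤ B s h z := exp_le_B s h z

theorem LP_tendsto (v x : ℝ) : Tendsto (fun m => LP m v x) (𝓝[<] 1) (𝓝 (LP 1 v x)) := by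
  have hev : ∀ᶠ m : ℝ in 𝓝[<] 1, m ≤ 1 := by
    filter_upwards [self_mem_nhdsWithin] with m hm using le_of_lt hm
  have hp : ∀ u : ℝ, Tendsto (fun m : ℝ => Real.cosh u ^ m) (𝓝[<] 1) (𝓝 (Real.cosh u ^ (1 : ℝ))) :=
    fun u => ((Real.continuousAt_const_rpow (Real.cosh_pos u).ne').tendsto).mono_left
      nhdsWithin_le_nhds
  have h1 : Tendsto (fun m : ℝ => E1 (fun y => Real.cosh (x + √v * y) ^ m *
      Real.log (Real.cosh (x + √v * y)))) (𝓝[<] 1) (𝓝 (E1 (fun y =>
        Real.cosh (x + √v * y) ^ (1 : ℝ) * Real.log (Real.cosh (x + √v * y))))) := by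
    unfold E1
    refine tendsto_integral_filter_of_dominated_convergence (B v x) ?_ ?_ (intB v x) ?_
    · filter_upwards [hev] with m hm using (int_num hm v x).aestronglyMeasurable
    · filter_upwards [hev] with m hm
      refine Eventually.of_forall fun y => ?_
      rw [Real.norm_eq_abs, abs_of_nonneg (num_nonneg m _)]
      exact num_le hm v x y
    · exact Eventually.of_forall fun y => (hp _).mul_const _
  have h2 : Tendsto (fun m : ℝ => E1 (fun y => Real.cosh (x + √v * y) ^ m)) (𝓝[<] 1)
      (𝓝 (E1 (fun y => Real.cosh (x + √v * y) ^ (1 : ℝ)))) := by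
    unfold E1
    refine tendsto_integral_filter_of_dominated_convergence (B v x) ?_ ?_ (intB v x) ?_
    · filter_upwards [hev] with m hm using (int_den hm v x).aestronglyMeasurable
    · filter_upwards [hev] with m hm
      refine Eventually.of_forall fun y => ?_
      rw [Real.norm_eq_abs, abs_of_nonneg (Real.rpow_nonneg (Real.cosh_pos _).le m)]
      exact den_le hm v x y
    · exact Eventually.of_forall fun y => hp _
  unfold LP
  exact h1.div h2 (zero_lt_one.trans_le (D_ge zero_lt_one le_rfl v x)).ne'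

end LIMf

open LIMf in
theorem t_LIM : St_LIM := by
  intro s h v _ _
  have hB : Integrable (fun z => B s h z * C2 v) (gaussianReal 0 1) := (intB s h).mul_const _
  have hC : 0 ≤ C2 v := integral_nonneg fun y => (Real.exp_pos _).le
  have hbd : ∀ z : ℝ, Real.exp (2 * |h + √s * z|) * C2 v ≤ B s h z * C2 v := fun z =>
    mul_le_mul_of_nonneg_right (exp_aff s h z) hC
  have hint : ∀ m : ℝ, 0 < m → m ≤ 1 →
      Integrable (fun z => LP m v (h + √s * z)) (gaussianReal 0 1) := by
    intro m h0 h1
    refine hB.mono' ((LP_meas m v).comp (meas_aff s h)).aestronglyMeasurable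
      (Eventually.of_forall fun z => ?_)
    rw [Real.norm_eq_abs]
    exact (LP_abs h0 h1 v _).trans (hbd z)
  refine ⟨fun m h0 h1 => ⟨hint m h0 h1, ?_⟩, ?_⟩
  · refine (hB.const_mul (1 / m)).mono' ((UH_meas m v).comp (meas_aff s h)).aestronglyMeasurable
      (Eventually.of_forall fun z => ?_)
    rw [Real.norm_eq_abs]
    exact (UH_abs h0 h1 v _).trans (mul_le_mul_of_nonneg_left (hbd z) (by positivity))
  · have hev : ∀ᶠ m : ℝ in 𝓝[<] 1, 0 < m ∧ m ≤ 1 := by
      filter_upwards [self_mem_nhdsWithin, mem_nhdsWithin_of_mem_nhds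
        (lt_mem_nhds (zero_lt_one : (0 : ℝ) < 1))] with m hm h0 using ⟨h0, le_of_lt hm⟩
    unfold E1
    refine tendsto_integral_filter_of_dominated_convergence (fun z => B s h z * C2 v) ?_ ?_ hB ?_
    · filter_upwards [hev] with m hm using (hint m hm.1 hm.2).aestronglyMeasurable
    · filter_upwards [hev] with m hm
      refine Eventually.of_forall fun z => ?_
      rw [Real.norm_eq_abs]
      exact (LP_abs hm.1 hm.2 v _).trans (hbd z)
    · exact Eventually.of_forall fun z => LP_tendsto v _

end Pool.TH198.AT
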